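import Mathlib

set_option autoImplicit false
open Filter MeasureTheory Set Real
open scoped Topology FourierTransform RealInnerProductSpace

namespace Pool.Agent.H.MP_e62a5f_gt

variable {V : Type} [NormedAddCommGroup V] [InnerProductSpace ℝ V]
  [MeasurableSpace V] [BorelSpace V] [FiniteDimensional ℝ V]

def PD (k : V → ℝ) : Prop :=
  ∀ (s : Finset V) (a : V → ℝ), 0 ≤ ∑ x ∈ s, ∑ y ∈ s, a x * a y * k (x - y)

omit [MeasurableSpace V] [BorelSpace V] [FiniteDimensional ℝ V] in
lemma PD.cos {k : V → ℝ} (h : PD k) (w : V) : PD fun z => Real.cos ⟪z, w⟫ * k z := by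
  intro s a
  have h1 := h s fun x => a x * Real.cos ⟪x, w⟫
  have h2 := h s fun x => a x * Real.sin ⟪x, w⟫
  refine (add_nonneg h1 h2).trans_eq ?_
  rw [← Finset.sum_add_distrib]
  refine Finset.sum_congr rfl fun x _ => ?_
  rw [← Finset.sum_add_distrib]
  refine Finset.sum_congr rfl fun y _ => ?_
  simp only [inner_sub_left, Real.cos_sub]
  ring

lemma PD.int {k g : V → ℝ} (h : PD k) (hk : Continuous k) (hb : ∀ z, |k z| ≤ 1)
    (hg : Integrable g) : 0 ≤ ∫ p : V × V, g p.1 * g p.2 * k (p.1 - p.2) ∂(volume.prod volume) := by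
  classical
  let s : ℕ → SimpleFunc V V := SimpleFunc.approxOn id measurable_id univ 0 trivial
  have hs : ∀ x, Tendsto (fun n => s n x) atTop (𝓝 x) := fun x =>
    SimpleFunc.tendsto_approxOn (s := univ) measurable_id trivial (by simp)
  have hgg := hg.mul_prod hg
  refine ge_of_tendsto' (f := fun n => ∫ p : V × V, g p.1 * g p.2 * k (s n p.1 - s n p.2)
    ∂(volume.prod volume)) (x := atTop) ?_ fun n => ?_
  · refine tendsto_integral_of_dominated_convergence _ (fun n => hgg.1.mul ?_) hgg.norm
      (fun n => ae_of_all _ fun p => ?_) (ae_of_all _ fun p => ?_)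
    · exact (hk.measurable.comp (((s n).measurable.comp measurable_fst).sub
        ((s n).measurable.comp measurable_snd))).aestronglyMeasurable
    · rw [norm_mul]
      exact mul_le_of_le_one_right (norm_nonneg _) (hb _)
    · exact ((hk.tendsto _).comp ((hs p.1).sub (hs p.2))).const_mul _
  · let G : V → V → ℝ := fun a => (s n ⁻¹' {a}).indicator g
    have hG : ∀ a, Integrable (G a) := fun a => hg.indicator ((s n).measurableSet_fiber a)
    have e : ∀ p : V × V, g p.1 * g p.2 * k (s n p.1 - s n p.2) =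
        ∑ a ∈ (s n).range, ∑ b ∈ (s n).range, G a p.1 * G b p.2 * k (a - b) := by
      intro p
      rw [Finset.sum_eq_single (s n p.1), Finset.sum_eq_single (s n p.2)]
      · simp [G]
      · intro b _ hb
        simp [G, hb.symm]
      · simp
      · intro a _ ha
        simp [G, ha.symm]
      · simp
    simp_rw [e]
    rw [integral_finsetSum _ fun a _ => integrable_finsetSum _ fun b _ =>
      ((hG a).mul_prod (hG b)).mul_const _]
    refine (h (s n).range fun a => ∫ x, G a x).trans_eq (Finset.sum_congr rfl fun a _ => ?_)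
    rw [integral_finsetSum _ fun b _ => ((hG a).mul_prod (hG b)).mul_const _]
    refine Finset.sum_congr rfl fun b _ => ?_
    rw [integral_mul_const, integral_prod_mul]

lemma gauss_int {b : ℝ} (hb : 0 < b) : Integrable fun v : V => Real.exp (-b * ‖v‖ ^ 2) := by
  have := (GaussianFourier.integrable_cexp_neg_mul_sq_norm_add (b := b) (by simpa) 0 (0 : V)).norm
  refine this.congr (ae_of_all _ fun v => ?_)
  simp only [zero_mul, add_zero, Complex.norm_exp]
  norm_cast

lemma PD.gauss {k : V → ℝ} (h : PD k) (hk : Continuous k) (hb : ∀ z, |k z| ≤ 1) {b : ℝ}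
    (h0 : 0 < b) : 0 ≤ ∫ z, Real.exp (-b * ‖z‖ ^ 2) * k z := by
  have hg : Integrable fun v : V => Real.exp (-(2 * b) * ‖v‖ ^ 2) := gauss_int (by positivity)
  have h1 := h.int hk hb hg
  have hi : Integrable (fun p : V × V => Real.exp (-(2 * b) * ‖p.1‖ ^ 2) *
      Real.exp (-(2 * b) * ‖p.2‖ ^ 2) * k (p.1 - p.2)) (volume.prod volume) :=
    (hg.mul_prod hg).mul_bdd (c := 1) (by fun_prop) (ae_of_all _ fun p => hb _)
  have mp := measurePreserving_add_prod (volume : Measure V) (volume : Measure V)
  rw [← mp.map_eq, integral_map mp.measurable.aemeasurable (by fun_prop)] at h1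
  replace h1 := h1.trans_eq (integral_prod _ ((mp.integrable_comp hi.1).2 hi))
  have e : ∀ z : V, ∫ y : V, Real.exp (-(2 * b) * ‖z + y‖ ^ 2) * Real.exp (-(2 * b) * ‖y‖ ^ 2) *
      k (z + y - y) = Real.exp (-b * ‖z‖ ^ 2) * k z * ∫ y : V, Real.exp (-(4 * b) * ‖y‖ ^ 2) := by
    intro z
    rw [← integral_add_left_eq_self (fun y : V => Real.exp (-(4 * b) * ‖y‖ ^ 2)) ((1 / 2 : ℝ) • z),
      ← integral_const_mul]
    refine integral_congr_ae (ae_of_all _ fun y => ?_)
    simp only [add_sub_cancel_right]
    rw [← Real.exp_add, mul_right_comm, ← Real.exp_add]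
    congr 2
    rw [norm_add_sq_real, norm_add_sq_real, norm_smul, real_inner_smul_left]
    norm_num
    ring
  simp only [e] at h1
  rw [integral_mul_const, GaussianFourier.integral_rexp_neg_mul_sq_norm (by positivity)] at h1
  exact nonneg_of_mul_nonneg_left h1 (by positivity)

lemma PD.nonneg {k : V → ℝ} (h : PD k) (hk : Continuous k) (hb : ∀ z, |k z| ≤ 1)
    (hi : Integrable k) : 0 ≤ ∫ z, k z := by
  have := (Complex.continuous_re.tendsto _).comp (Real.tendsto_integral_cexp_sq_smul hi.ofReal)
  rw [integral_ofReal] at this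
  refine ge_of_tendsto this ?_
  filter_upwards [Ioi_mem_atTop 0] with c (hc : 0 < c)
  refine (h.gauss hk hb (inv_pos.2 hc)).trans_eq ?_
  simp only [Function.comp, smul_eq_mul]
  rw [← Complex.ofReal_re (∫ _, _), ← integral_complex_ofReal]
  simp

theorem bochner {f : V → ℝ} (h : PD f) (hk : Continuous f) (hb : ∀ z, |f z| ≤ 1)
    (hi : Integrable f) (he : ∀ z, f (-z) = f z) (h0 : f 0 = 1) :
    ∃ P : Measure V, IsProbabilityMeasure P ∧ ∀ t, charFun P ((2 * π) • t) = f t := by
  let F : V → ℂ := fun z => f z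
  have hF : Integrable F := hi.ofReal
  have cF : Continuous F := by fun_prop
  let p : V → ℝ := fun w => ∫ z, Real.cos ⟪z, (2 * π) • w⟫ * f z
  have ic : ∀ w : V, Integrable fun z => Real.cos ⟪z, w⟫ * f z := fun w =>
    hi.bdd_mul (c := 1) (by fun_prop) (ae_of_all _ fun z => abs_cos_le_one _)
  have is : ∀ w : V, Integrable fun z => Real.sin ⟪z, w⟫ * f z := fun w =>
    hi.bdd_mul (c := 1) (by fun_prop) (ae_of_all _ fun z => abs_sin_le_one _)
  have p0 : ∀ w, 0 ≤ p w := fun w => (h.cos _).nonneg (by fun_prop) (fun z => by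
    rw [abs_mul]; exact mul_le_one₀ (abs_cos_le_one _) (abs_nonneg _) (hb z)) (ic _)
  have s0 : ∀ w : V, ∫ z, Real.sin ⟪z, w⟫ * f z = 0 := fun w => by
    have := integral_neg_eq_self (fun z : V => Real.sin ⟪z, w⟫ * f z) volume
    simp only [inner_neg_left, Real.sin_neg, he, neg_mul, integral_neg] at this
    linarith
  have hp : ∀ w, 𝓕 F w = p w := fun w => by
    have : (p w : ℂ) = p w - (∫ z, Real.sin ⟪z, (2 * π) • w⟫ * f z : ℝ) * Complex.I := by
      rw [s0]; simp
    rw [this, fourier_eq', ← integral_complex_ofReal, ← integral_complex_ofReal,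
      ← integral_mul_const, ← integral_sub (ic _).ofReal ((is _).ofReal.mul_const _)]
    refine integral_congr_ae (ae_of_all _ fun z => ?_)
    simp only [F, real_inner_smul_right, Complex.exp_mul_I, smul_eq_mul]
    simp only [neg_mul,
      Complex.ofReal_neg, Complex.cos_neg, Complex.sin_neg, Complex.ofReal_mul,
      Complex.ofReal_cos, Complex.ofReal_sin]
    ring
  have cp : Continuous p := by
    have : Continuous (𝓕 F) := VectorFourier.fourierIntegral_continuous Real.continuous_fourierChar
      continuous_inner hF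
    exact (Complex.continuous_re.comp this).congr fun w => by simp [hp]
  have lim : Tendsto (fun c : ℝ => ∫ w : V, Real.exp (-c⁻¹ * ‖w‖ ^ 2) * p w) atTop (𝓝 1) := by
    have := (Complex.continuous_re.tendsto _).comp
      (Real.tendsto_integral_gaussian_smul' hF (v := 0) cF.continuousAt)
    simp only [F, h0, Complex.ofReal_one, Complex.one_re] at this
    refine this.congr' ?_
    filter_upwards [Ioi_mem_atTop 0] with c (hc : 0 < c)
    have J : Integrable (fun w : V => Complex.exp (- c⁻¹ * ‖w‖ ^ 2 + 2 * π * Complex.I * ⟪0, w⟫)) :=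
      GaussianFourier.integrable_cexp_neg_mul_sq_norm_add (by simpa) _ _
    have K : ∫ w : V, 𝓕 (fun w : V => Complex.exp (- c⁻¹ * ‖w‖ ^ 2 +
        2 * π * Complex.I * ⟪0, w⟫)) w • F w =
        ∫ w : V, Complex.exp (- c⁻¹ * ‖w‖ ^ 2 + 2 * π * Complex.I * ⟪0, w⟫) • 𝓕 F w := by
      simpa using! (VectorFourier.integral_fourierIntegral_smul_eq_flip (L := innerₗ V)
        Real.continuous_fourierChar continuous_inner J hF)
    rw [← Complex.ofReal_re (∫ w : V, Real.exp _ * _), ← integral_complex_ofReal, Function.comp]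
    congr 1
    refine Eq.trans (integral_congr_ae (ae_of_all _ fun w => ?_))
      (K.trans (integral_congr_ae (ae_of_all _ fun w => by simp [hp])))
    dsimp only
    rw [fourier_gaussian_innerProductSpace' (by simpa)]
    congr 2
    · simp
    · simp; ring_nf
  have ip : Integrable p := by
    refine ⟨cp.aestronglyMeasurable, (hasFiniteIntegral_iff_ofReal (ae_of_all _ p0)).2 ?_⟩
    have A := lintegral_liminf_le (μ := volume) (u := atTop)
      (f := fun (c : ℝ) (w : V) => ENNReal.ofReal (Real.exp (-c⁻¹ * ‖w‖ ^ 2) * p w))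
      (fun c => by fun_prop)
    have B : Tendsto (fun c : ℝ => ∫⁻ w : V, ENNReal.ofReal (Real.exp (-c⁻¹ * ‖w‖ ^ 2) * p w))
        atTop (𝓝 (ENNReal.ofReal 1)) := by
      refine (ENNReal.tendsto_ofReal lim).congr' ?_
      filter_upwards [Ioi_mem_atTop 0] with c (hc : 0 < c)
      refine ofReal_integral_eq_lintegral_ofReal ?_ (ae_of_all _ fun w => mul_nonneg (exp_pos _).le (p0 w))
      refine (gauss_int (inv_pos.2 hc)).mul_bdd (c := ∫ z, ‖f z‖) cp.aestronglyMeasurable
        (ae_of_all _ fun w => norm_integral_le_of_norm_le hi.norm (ae_of_all _ fun z => ?_))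
      rw [norm_mul]
      exact mul_le_of_le_one_left (norm_nonneg _) (abs_cos_le_one _)
    rw [B.liminf_eq] at A
    refine lt_of_le_of_lt (le_of_eq (lintegral_congr fun w => ?_)) (A.trans_lt ENNReal.ofReal_lt_top)
    refine (Tendsto.liminf_eq (ENNReal.tendsto_ofReal ?_)).symm
    have := (((Real.continuous_exp.tendsto _).comp
      (tendsto_inv_atTop_zero.neg.mul_const (‖w‖ ^ 2)))).mul_const (p w)
    simpa using this
  have iF : Integrable (𝓕 F) := ip.ofReal.congr (ae_of_all _ fun w => (hp w).symm)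
  have hc : ∀ t, charFun (volume.withDensity fun w => ENNReal.ofReal (p w)) ((2 * π) • t) = f t := by
    intro t
    rw [charFun_apply, integral_withDensity_eq_integral_toReal_smul (by fun_prop)
      (ae_of_all _ fun _ => ENNReal.ofReal_lt_top)]
    refine Eq.trans ?_ (hF.fourierInv_fourier_eq iF (v := t) cF.continuousAt)
    rw [fourierInv_eq']
    refine integral_congr_ae (ae_of_all _ fun w => ?_)
    simp only [hp, ENNReal.toReal_ofReal (p0 w), real_inner_smul_right, Complex.real_smul,
      smul_eq_mul, mul_comm]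
  refine ⟨_, ?_, hc⟩
  have := hc 0
  rw [smul_zero, charFun_zero, h0] at this
  exact isProbabilityMeasure_iff_real.2 (by exact_mod_cast this)

end Pool.Agent.H.MP_e62a5f_gt
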