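import Pool.Agent.H.MP_e62a5f_gt.A

set_option autoImplicit false
open Filter MeasureTheory Set Real
open scoped Topology FourierTransform RealInnerProductSpace

namespace Pool.Agent.H.MP_e62a5f_gt

lemma moment {μ : Measure ℝ} [IsProbabilityMeasure μ] {κ q : ℝ} (hκ : 0 ≤ κ)
    (h : ∀ t, charFun μ t = Real.exp (-(|t| * κ))) (hq : q ∈ Ioo (0 : ℝ) 1) :
    Integrable (fun u => |u| ^ q) μ := by
  have tail : ∀ r, 0 < r → μ.real {x | r < |x|} ≤ (1 + 4 * κ) / (r + 1) := by
    intro r hr
    have h1 := measureReal_abs_gt_le_integral_charFun (μ := μ) hr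
    have h2 : ‖∫ t in (-2 * r⁻¹)..(2 * r⁻¹), 1 - charFun μ t‖ ≤
        (2 * r⁻¹ * κ) * |2 * r⁻¹ - -2 * r⁻¹| := by
      refine intervalIntegral.norm_integral_le_of_norm_le_const fun t ht => ?_
      have hr' : 0 < r⁻¹ := inv_pos.2 hr
      rw [uIoc_of_le (by linarith)] at ht
      have a : |t| ≤ 2 * r⁻¹ := abs_le.2 ⟨by linarith [ht.1], ht.2⟩
      have b := Real.add_one_le_exp (-(|t| * κ))
      have c : Real.exp (-(|t| * κ)) ≤ 1 := Real.exp_le_one_iff.2 (neg_nonpos.2 (by positivity))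
      rw [h, ← Complex.ofReal_one, ← Complex.ofReal_sub, Complex.norm_real, Real.norm_eq_abs,
        abs_of_nonneg (by linarith)]
      nlinarith
    have h3 : r * μ.real {x | r < |x|} ≤ 4 * κ := by
      refine (mul_le_mul_of_nonneg_left (h1.trans
        (mul_le_mul_of_nonneg_left h2 (by positivity))) hr.le).trans_eq ?_
      rw [abs_of_nonneg (by have := inv_pos.2 hr; linarith)]
      field_simp
      ring
    have h4 : μ.real {x | r < |x|} ≤ 1 := measureReal_le_one
    rw [le_div_iff₀ (by positivity)]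
    linarith
  refine ⟨Measurable.aestronglyMeasurable (by fun_prop), (hasFiniteIntegral_iff_ofReal (ae_of_all _ fun u => by positivity)).2 ?_⟩
  rw [lintegral_rpow_eq_lintegral_meas_lt_mul μ (ae_of_all _ fun u => abs_nonneg u) (by fun_prop)
    hq.1]
  refine ENNReal.mul_lt_top ENNReal.ofReal_lt_top (lt_of_le_of_lt ?_
    ((Real.integrableOn_rpowIntegrand₀₁_Ioi hq zero_le_one).const_mul (1 + 4 * κ)).lintegral_lt_top)
  refine setLIntegral_mono' measurableSet_Ioi fun t (ht : 0 < t) => ?_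
  rw [← ofReal_measureReal, ← ENNReal.ofReal_mul measureReal_nonneg,
    Real.rpowIntegrand₀₁_eq_pow_div hq ht.le zero_le_one]
  refine ENNReal.ofReal_le_ofReal ((mul_le_mul_of_nonneg_right (tail t ht) (by positivity)).trans_eq ?_)
  ring

lemma amgm {u r q : ℝ} (hu : 0 ≤ u) (hr : u ≤ r) (hq : q ∈ Ioo (0 : ℝ) 1) :
    |u ^ q - r ^ (q - 1) * u| ≤ (1 - q) * r ^ q := by
  have h1 : 0 < 1 - q := sub_pos.2 hq.2
  rcases hu.eq_or_lt with rfl | hu
  · rw [Real.zero_rpow hq.1.ne', mul_zero, sub_zero, abs_zero]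
    positivity
  have hr0 := hu.trans_le hr
  have a : r ^ (q - 1) * u ≤ u ^ q := by
    rw [show u ^ q = u ^ (q - 1) * u by rw [Real.rpow_sub_one hu.ne']; field_simp]
    exact mul_le_mul_of_nonneg_right (Real.rpow_le_rpow_of_nonpos hu hr (by linarith)) hu.le
  have b := mul_le_mul_of_nonneg_left (Real.geom_mean_le_arith_mean2_weighted hq.1.le h1.le hu.le
    hr0.le (by ring)) (Real.rpow_nonneg hr0.le (q - 1))
  have c : r ^ (q - 1) * r ^ (1 - q) = 1 := by rw [← Real.rpow_add hr0]; simp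
  have d : r ^ (q - 1) * r = r ^ q := by rw [Real.rpow_sub_one hr0.ne']; field_simp
  have e : 0 ≤ r ^ (q - 1) * u := by positivity
  rw [abs_of_nonneg (by linarith)]
  have : r ^ (q - 1) * (u ^ q * r ^ (1 - q)) = u ^ q := by rw [mul_left_comm, c, mul_one]
  rw [this, mul_add, mul_left_comm _ (1 - q), d, mul_left_comm] at b
  nlinarith

variable {V : Type} [NormedAddCommGroup V] [InnerProductSpace ℝ V]
  [MeasurableSpace V] [BorelSpace V] [FiniteDimensional ℝ V]

theorem transfer {N : V → ℝ} {P : Measure V} [IsProbabilityMeasure P] {κ : ℝ} (hκ : 0 < κ)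
    (h0 : ∀ x, 0 ≤ N x) (hs : ∀ (t : ℝ) x, N (t • x) = |t| * N x)
    (hP : ∀ x, charFun P x = Real.exp (-(N x * κ))) :
    ∃ C, 0 ≤ C ∧ ∀ (ι : Type) [Fintype ι] (c : ι → ℝ) (z z' : ι → V) (B : ℝ), 0 ≤ B →
      (∀ w : V, ∑ i, c i * |⟪w, z i⟫| - ∑ i, c i * |⟪w, z' i⟫| ≤ B * ‖w‖) →
      ∑ i, c i * N (z i) - ∑ i, c i * N (z' i) ≤ C * B := by
  by_cases hN : ∀ x, N x = 0
  · exact ⟨0, le_rfl, fun _ _ _ _ _ _ _ _ => by simp [hN]⟩
  obtain ⟨x1, hx1⟩ := not_forall.1 hN
  obtain ⟨x0, hx0⟩ : ∃ x0, N x0 = 1 :=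
    ⟨(N x1)⁻¹ • x1, by rw [hs, abs_of_nonneg (inv_nonneg.2 (h0 _)), inv_mul_cancel₀ hx1]⟩
  have ms : ∀ x : V, Measurable fun w : V => ⟪w, x⟫ := fun x => by fun_prop
  have pr : ∀ x : V, IsProbabilityMeasure (P.map fun w : V => ⟪w, x⟫) := fun x =>
    Measure.isProbabilityMeasure_map (ms x).aemeasurable
  have cf : ∀ (x : V) t, charFun (P.map fun w : V => ⟪w, x⟫) t = Real.exp (-(|t| * (N x * κ))) := by
    intro x t
    rw [← mul_assoc, ← hs, ← hP, charFun_apply_real, integral_map (ms x).aemeasurable (by fun_prop),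
      charFun_apply]
    simp [real_inner_smul_right]
  have law : ∀ x : V, (P.map fun w : V => ⟪w, x⟫) = P.map fun w : V => N x * ⟪w, x0⟫ := by
    intro x
    have : IsProbabilityMeasure (P.map fun w : V => N x * ⟪w, x0⟫) :=
      Measure.isProbabilityMeasure_map (by fun_prop)
    refine Measure.ext_of_charFun (funext fun t => ?_)
    rw [charFun_map_mul_comp (ms x0).aemeasurable, cf, cf, hx0, abs_mul, abs_of_nonneg (h0 x)]
    congr 3
    ring
  let b := stdOrthonormalBasis ℝ V
  let C := ∑ j, (1 + N (b j))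
  refine ⟨C, Finset.sum_nonneg fun j _ => by linarith [h0 (b j)], ?_⟩
  intro ι _ c z z' B hB hw
  have key : ∀ q ∈ Ioo (0 : ℝ) 1, ∃ A : V → ℝ, (∑ i, c i * A (z i) - ∑ i, c i * A (z' i) ≤ C * B) ∧
      ∀ x R, 0 < R → ‖x‖ ≤ R → |N x ^ q - R ^ (q - 1) * A x| ≤ (1 - q) * R ^ q * C := by
    intro q hq
    have iq : ∀ x : V, Integrable (fun w : V => |⟪w, x⟫| ^ q) P := fun x =>
      (integrable_map_measure (Measurable.aestronglyMeasurable (by fun_prop)) (ms x).aemeasurable).1
        (moment (mul_nonneg (h0 x) hκ.le) (cf x) hq)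
    let m := ∫ w, |⟪w, x0⟫| ^ q ∂P
    have eq : ∀ x : V, ∫ w, |⟪w, x⟫| ^ q ∂P = N x ^ q * m := fun x => by
      rw [← integral_map (f := fun u : ℝ => |u| ^ q) (ms x).aemeasurable
        (Measurable.aestronglyMeasurable (by fun_prop)), law,
        integral_map (by fun_prop) (Measurable.aestronglyMeasurable (by fun_prop)), ← integral_const_mul]
      refine integral_congr_ae (ae_of_all _ fun w => ?_)
      simp only [abs_mul, abs_of_nonneg (h0 x)]
      rw [Real.mul_rpow (h0 x) (abs_nonneg _)]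
    have m0 : 0 < m := by
      refine (integral_nonneg fun w => by positivity).lt_of_ne' fun e => ?_
      rw [integral_eq_zero_iff_of_nonneg (fun w => by positivity) (iq x0)] at e
      have : charFun P x0 = ∫ _, 1 ∂P := by
        refine integral_congr_ae (e.mono fun w hw => ?_)
        have : ⟪w, x0⟫ = 0 := abs_eq_zero.1 ((Real.rpow_eq_zero (abs_nonneg _) hq.1.ne').1 hw)
        simp [this]
      rw [hP, hx0, integral_const] at this
      have : Real.exp (-(1 * κ)) = 1 := by
        rw [probReal_univ, one_smul] at this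
        exact_mod_cast this
      rw [Real.exp_eq_one_iff] at this
      linarith
    have nb : ∀ w : V, ‖w‖ ^ q ≤ ∑ j, |⟪w, b j⟫| ^ q := fun w => by
      have h1 : ‖w‖ ≤ ∑ j, |⟪w, b j⟫| := by
        conv_lhs => rw [← b.sum_repr' w]
        refine (norm_sum_le _ _).trans_eq (Finset.sum_congr rfl fun j _ => ?_)
        rw [norm_smul, b.orthonormal.1 j, mul_one, real_inner_comm, Real.norm_eq_abs]
      refine (Real.rpow_le_rpow (norm_nonneg _) h1 hq.1.le).trans ?_
      induction (Finset.univ : Finset (Fin (Module.finrank ℝ V))) using Finset.induction_on with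
      | empty => simp [hq.1.ne']
      | insert j s hj ih =>
        rw [Finset.sum_insert hj, Finset.sum_insert hj]
        exact (Real.rpow_add_le_add_rpow (abs_nonneg _) (by positivity) hq.1.le hq.2.le).trans
          (by linarith)
    have iS := integrable_finsetSum Finset.univ fun j _ => iq (b j)
    have iN : Integrable (fun w : V => ‖w‖ ^ q) P :=
      iS.mono' (Measurable.aestronglyMeasurable (by fun_prop)) (ae_of_all _ fun w => by
        rw [Real.norm_of_nonneg (by positivity)]; exact nb w)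
    have bN : ∫ w, ‖w‖ ^ q ∂P ≤ C * m := by
      refine (integral_mono iN iS nb).trans ?_
      rw [integral_finsetSum _ fun j _ => iq (b j), Finset.sum_mul]
      refine Finset.sum_le_sum fun j _ => ?_
      rw [eq]
      refine mul_le_mul_of_nonneg_right ?_ m0.le
      have := Real.geom_mean_le_arith_mean2_weighted hq.1.le (sub_pos.2 hq.2).le (h0 (b j))
        zero_le_one (by ring)
      rw [Real.one_rpow] at this
      nlinarith [h0 (b j), hq.1, hq.2]
    have pw : ∀ w : V, ‖w‖ ^ (q - 1) * ‖w‖ = ‖w‖ ^ q := fun w => by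
      rw [← Real.rpow_add_one' (norm_nonneg _) (by simpa using hq.1.ne')]; simp
    have iA : ∀ x : V, Integrable (fun w : V => ‖w‖ ^ (q - 1) * |⟪w, x⟫|) P := fun x =>
      (iN.mul_const ‖x‖).mono' (by fun_prop) (ae_of_all _ fun w => by
        rw [Real.norm_of_nonneg (by positivity), ← pw, mul_assoc]
        exact mul_le_mul_of_nonneg_left (abs_real_inner_le_norm _ _) (by positivity))
    refine ⟨fun x => (∫ w, ‖w‖ ^ (q - 1) * |⟪w, x⟫| ∂P) / m, ?_, fun x R hR hx => ?_⟩
    · simp only [← mul_div_assoc, ← Finset.sum_div, ← sub_div, ← integral_const_mul]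
      have i1 : ∀ z : ι → V, _ := fun z =>
        integrable_finsetSum Finset.univ fun i _ => (iA (z i)).const_mul (c i)
      rw [div_le_iff₀ m0, ← integral_finsetSum _ fun i _ => (iA (z i)).const_mul (c i),
        ← integral_finsetSum _ fun i _ => (iA (z' i)).const_mul (c i), ← integral_sub (i1 z) (i1 z')]
      refine (integral_mono ((i1 z).sub (i1 z')) (iN.const_mul B) fun w => ?_).trans ?_
      · have := mul_le_mul_of_nonneg_left (hw w) (Real.rpow_nonneg (norm_nonneg w) (q - 1))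
        rw [mul_left_comm, pw, mul_sub, Finset.mul_sum, Finset.mul_sum] at this
        simpa only [mul_left_comm] using! this
      · rw [integral_const_mul]
        nlinarith
    · have : N x ^ q - R ^ (q - 1) * ((∫ w, ‖w‖ ^ (q - 1) * |⟪w, x⟫| ∂P) / m) =
          (∫ w, |⟪w, x⟫| ^ q - R ^ (q - 1) * (‖w‖ ^ (q - 1) * |⟪w, x⟫|) ∂P) / m := by
        rw [integral_sub (iq x) ((iA x).const_mul _), eq, integral_const_mul]
        field_simp
      rw [this, abs_div, abs_of_pos m0, div_le_iff₀ m0, ← Real.norm_eq_abs]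
      refine (norm_integral_le_of_norm_le (iN.const_mul ((1 - q) * R ^ q))
        (ae_of_all _ fun w => ?_)).trans ?_
      · have := amgm (abs_nonneg ⟪w, x⟫) (r := R * ‖w‖) ((abs_real_inner_le_norm _ _).trans
          (by rw [mul_comm]; gcongr)) hq
        rwa [Real.mul_rpow hR.le (norm_nonneg _), Real.mul_rpow hR.le (norm_nonneg _), mul_assoc,
          ← mul_assoc (1 - q)] at this
      · rw [integral_const_mul, mul_assoc _ C]
        exact mul_le_mul_of_nonneg_left bN (mul_nonneg (sub_pos.2 hq.2).le (by positivity))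
  choose! A h1 h2 using key
  have hm : ∀ᶠ q in 𝓝[<] (1 : ℝ), q ∈ Ioo (0 : ℝ) 1 := Ioo_mem_nhdsLT one_pos
  have lim : ∀ x, Tendsto (fun q => A q x) (𝓝[<] 1) (𝓝 (N x)) := by
    intro x
    have hR : 0 < ‖x‖ + 1 := by positivity
    have t0 : Tendsto (fun q : ℝ => q) (𝓝[<] 1) (𝓝 1) := tendsto_nhdsWithin_of_tendsto_nhds tendsto_id
    have t1 : Tendsto (fun q : ℝ => N x ^ q - (‖x‖ + 1) ^ (q - 1) * A q x) (𝓝[<] 1) (𝓝 0) := by
      refine squeeze_zero_norm' (hm.mono fun q hq => h2 q hq x _ hR (by linarith)) ?_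
      simpa using (((tendsto_const_nhds (x := (1 : ℝ))).sub t0).mul
        ((tendsto_const_nhds (x := ‖x‖ + 1)).rpow t0 (Or.inl hR.ne'))).mul_const C
    have t2 := (((tendsto_const_nhds (x := N x)).rpow t0 (Or.inr one_pos)).sub t1).mul
      ((tendsto_const_nhds (x := ‖x‖ + 1)).rpow ((tendsto_const_nhds (x := (1 : ℝ))).sub t0)
        (Or.inl hR.ne'))
    simp only [Real.rpow_one, sub_zero, sub_self, Real.rpow_zero, mul_one, sub_sub_cancel] at t2
    refine t2.congr fun q => ?_
    rw [mul_right_comm, ← Real.rpow_add hR]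
    simp
  exact le_of_tendsto ((tendsto_finsetSum _ fun i _ => (lim (z i)).const_mul (c i)).sub
    (tendsto_finsetSum _ fun i _ => (lim (z' i)).const_mul (c i))) (hm.mono h1)

end Pool.Agent.H.MP_e62a5f_gt
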