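import Mathlib

set_option autoImplicit false
open Filter MeasureTheory Set Matrix
open scoped Topology

namespace Pool.Agent.H.MP_e62a5f_gt

variable {ι κ : Type} [Fintype ι] [Fintype κ] [DecidableEq κ]

def Q (M : ι → ι → ℝ) (μ : ι → ℝ) : ℝ := ∑ i, ∑ j, μ i * μ j * M i j

def push (π : ι → κ) (μ : ι → ℝ) (k : κ) : ℝ := ∑ i with π i = k, μ i

lemma sum_push (π : ι → κ) (μ : ι → ℝ) (g : κ → ℝ) :
    ∑ i, μ i * g (π i) = ∑ k, push π μ k * g k := by
  rw [← Finset.sum_fiberwise _ π]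
  refine Finset.sum_congr rfl fun k _ => ?_
  rw [push, Finset.sum_mul]
  exact Finset.sum_congr rfl fun i hi => by rw [(Finset.mem_filter.1 hi).2]

lemma Q_push (π : ι → κ) (μ : ι → ℝ) (h : κ → κ → ℝ) :
    Q (fun i j => h (π i) (π j)) μ = Q h (push π μ) := by
  simp only [Q, mul_assoc, ← Finset.mul_sum]
  simp only [fun i => sum_push π μ (h (π i))]
  exact sum_push π μ fun k => ∑ l, push π μ l * h k l

lemma Q_sq (a μ : ι → ℝ) (ha : ∀ i, a i * a i = a i) :
    Q (fun i j => (a i - a j) ^ 2) μ =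
      2 * (∑ i, μ i) * (∑ i, μ i * a i) - 2 * (∑ i, μ i * a i) ^ 2 := by
  have : ∀ i j, μ i * μ j * (a i - a j) ^ 2 =
      μ i * a i * μ j + μ i * (μ j * a j) - 2 * (μ i * a i * (μ j * a j)) := fun i j => by
    linear_combination μ i * μ j * ha i + μ i * μ j * ha j
  simp only [Q, this, Finset.sum_sub_distrib, Finset.sum_add_distrib, ← Finset.mul_sum,
    ← Finset.sum_mul]
  ring

lemma int_Q (u μ : ι → ℝ) : Integrable (fun s : ℝ => Q (fun i j =>
    ((if u i < s then 1 else 0 : ℝ) - if u j < s then 1 else 0) ^ 2) μ) ∧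
    ∫ s : ℝ, Q (fun i j => ((if u i < s then 1 else 0 : ℝ) - if u j < s then 1 else 0) ^ 2) μ =
      Q (fun i j => |u i - u j|) μ := by
  have e : ∀ a b s : ℝ, ((if a < s then 1 else 0 : ℝ) - if b < s then 1 else 0) ^ 2 =
      (uIoc b a).indicator 1 s := by
    intro a b s
    by_cases h1 : a < s <;> by_cases h2 : b < s <;>
      simp [indicator, mem_uIoc, h1, h2, not_le.2, not_lt.1]
  have hi : ∀ a b : ℝ, Integrable ((uIoc a b).indicator (1 : ℝ → ℝ)) := fun a b =>
    (integrable_indicator_iff measurableSet_uIoc).2 (integrableOn_const (by simp [Real.volume_uIoc]))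
  simp only [Q, e]
  have h1 := fun i => integrable_finsetSum Finset.univ fun j _ => (hi (u j) (u i)).const_mul (μ i * μ j)
  refine ⟨integrable_finsetSum _ fun i _ => h1 i, ?_⟩
  rw [integral_finsetSum _ fun i _ => h1 i]
  refine Finset.sum_congr rfl fun i _ => ?_
  rw [integral_finsetSum _ fun j _ => (hi (u j) (u i)).const_mul _]
  refine Finset.sum_congr rfl fun j _ => ?_
  rw [integral_const_mul, integral_indicator_one measurableSet_uIoc, Measure.real, Real.volume_uIoc,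
    ENNReal.toReal_ofReal (abs_nonneg _)]

lemma line (π : ι → κ) (u μ : ι → ℝ) (v : κ → ℝ) {δ : ℝ} (hδ : 0 ≤ δ)
    (h : ∀ i, |u i - v (π i)| ≤ δ) :
    Q (fun i j => |u i - u j|) μ - Q (fun i j => |v (π i) - v (π j)|) μ ≤
      10 * (Fintype.card κ) ^ 2 * (∑ k, push π μ k ^ 2) * δ := by
  set S := ∑ k, push π μ k ^ 2
  set n : ℝ := (Fintype.card κ : ℝ)
  have hS : 0 ≤ n * S := mul_nonneg (Nat.cast_nonneg _) (Finset.sum_nonneg fun _ _ => sq_nonneg _)
  have hi : ∀ k, Integrable ((Icc (v k - δ) (v k + δ)).indicator (1 : ℝ → ℝ)) := fun k =>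
    (integrable_indicator_iff measurableSet_Icc).2 (integrableOn_const (by simp))
  have h1 := int_Q u μ
  have h2 := int_Q (fun i => v (π i)) μ
  rw [← h1.2, ← h2.2, ← integral_sub h1.1 h2.1]
  refine (integral_mono (h1.1.sub h2.1)
    ((integrable_finsetSum Finset.univ fun k _ => hi k).const_mul (5 * (n * S))) fun s => ?_).trans ?_
  · have i0 : ∀ k ∈ Finset.univ, 0 ≤ (Icc (v k - δ) (v k + δ)).indicator (1 : ℝ → ℝ) s :=
      fun k _ => indicator_nonneg (fun _ _ => zero_le_one) _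
    dsimp only [Pi.sub_apply]
    by_cases hs : ∃ k, s ∈ Icc (v k - δ) (v k + δ)
    · obtain ⟨k, hk⟩ := hs
      have a := Finset.single_le_sum i0 (Finset.mem_univ k)
      rw [indicator_of_mem hk, Pi.one_apply] at a
      have cs : ∀ g : κ → ℝ, (∀ k, g k * g k ≤ 1) → (∑ i, μ i * g (π i)) ^ 2 ≤ n * S := by
        intro g hg
        rw [sum_push]
        refine sq_sum_le_card_mul_sum_sq.trans (mul_le_mul_of_nonneg_left
          (Finset.sum_le_sum fun k _ => ?_) (Nat.cast_nonneg _))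
        nlinarith [hg k, sq_nonneg (push π μ k)]
      have b := cs (fun _ => 1) (by simp)
      have c := cs (fun k => if v k < s then 1 else 0) (fun k => by split_ifs <;> simp)
      rw [Q_sq _ _ fun i => by split_ifs <;> simp, Q_sq _ _ fun i => by split_ifs <;> simp]
      simp only [mul_one] at b
      generalize (∑ i, μ i * (if v (π i) < s then 1 else 0 : ℝ)) = G at c ⊢
      generalize (∑ i, μ i * (if u i < s then 1 else 0 : ℝ)) = F
      generalize (∑ i, μ i) = T at b ⊢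
      nlinarith [sq_nonneg (T - 2 * F), sq_nonneg (T + 2 * G)]
    · have : ∀ i, u i < s ↔ v (π i) < s := fun i => by
        have a := abs_le.1 (h i)
        have b := not_exists.1 hs (π i)
        rw [mem_Icc, not_and_or, not_le, not_le] at b
        constructor <;> intro c <;> rcases b with b | b <;> linarith
      simp only [this, sub_self]
      exact mul_nonneg (by linarith) (Finset.sum_nonneg i0)
  · rw [integral_const_mul, integral_finsetSum _ fun k _ => hi k]
    simp only [integral_indicator_one measurableSet_Icc, Measure.real, Real.volume_Icc]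
    rw [Finset.sum_congr rfl fun k _ => (ENNReal.toReal_ofReal (by linarith)).trans
      (show v k + δ - (v k - δ) = 2 * δ by ring), Finset.sum_const, nsmul_eq_mul, Finset.card_univ]
    exact le_of_eq (by ring)

lemma Q_dot (M : ι → ι → ℝ) (μ : ι → ℝ) : star μ ⬝ᵥ (Matrix.of M *ᵥ μ) = Q M μ := by
  simp only [star_trivial, dotProduct, mulVec, of_apply, Finset.mul_sum, Q]
  exact Finset.sum_congr rfl fun i _ => Finset.sum_congr rfl fun j _ => by ring

lemma psd {M : ι → ι → ℝ} (h1 : ∀ i j, M j i = M i j) (h2 : ∀ μ, 0 ≤ Q M μ) :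
    (Matrix.of M).PosSemidef :=
  .of_dotProduct_mulVec_nonneg (by ext i j; simpa using h1 i j) fun μ => Q_dot M μ ▸ h2 μ

lemma schur {B E : ι → ι → ℝ} (hB : (Matrix.of B).PosSemidef) (hE : (Matrix.of E).PosSemidef)
    (μ : ι → ℝ) : Q B μ ≤ Q (fun i j => B i j * Real.exp (E i j)) μ := by
  have h : ∀ n : ℕ, (Matrix.of fun i j => B i j * E i j ^ n).PosSemidef := by
    intro n
    induction n with
    | zero => simpa using hB
    | succ n ih =>
      have : (Matrix.of fun i j => B i j * E i j ^ (n + 1)) =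
          (Matrix.of fun i j => B i j * E i j ^ n) ⊙ Matrix.of E := by
        ext i j; simp [pow_succ, mul_assoc]
      rw [this]
      exact ih.hadamard hE
  have s : HasSum (fun n : ℕ => Q (fun i j => B i j * E i j ^ n) μ / n.factorial)
      (Q (fun i j => B i j * Real.exp (E i j)) μ) := by
    simp only [Q, Finset.sum_div, ← mul_assoc, mul_div_assoc, Real.exp_eq_exp_ℝ]
    exact hasSum_sum fun i _ => hasSum_sum fun j _ =>
      (NormedSpace.expSeries_div_hasSum_exp (E i j)).mul_left _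
  simpa using le_hasSum s 0 fun n _ => div_nonneg
    (Q_dot _ μ ▸ (h n).dotProduct_mulVec_nonneg μ) (Nat.cast_nonneg _)

lemma dual {Z : κ → κ → ℝ} (h : (Matrix.of Z).PosDef) (c m : κ → ℝ) :
    2 * ∑ k, c k * m k - Q Z m ≤ Q (fun i j => (Matrix.of Z)⁻¹ i j) c := by
  have hu := (Matrix.isUnit_iff_isUnit_det _).1 h.isUnit
  have := h.posSemidef.dotProduct_mulVec_nonneg (m - (Matrix.of Z)⁻¹ *ᵥ c)
  have e : Matrix.of Z *ᵥ ((Matrix.of Z)⁻¹ *ᵥ c) = c := by
    rw [mulVec_mulVec, mul_nonsing_inv _ hu, one_mulVec]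
  have e2 : ((Matrix.of Z)⁻¹ *ᵥ c) ⬝ᵥ (Matrix.of Z *ᵥ m) = c ⬝ᵥ m := by
    rw [dotProduct_mulVec, ← mulVec_transpose, show (Matrix.of Z)ᵀ = Matrix.of Z from h.1, e]
  rw [star_trivial, mulVec_sub, e, sub_dotProduct, dotProduct_sub, dotProduct_sub, e2,
    dotProduct_comm m c, dotProduct_comm _ c] at this
  have a := Q_dot Z m
  have b := Q_dot (fun i j => (Matrix.of Z)⁻¹ i j) c
  rw [star_trivial] at a b
  rw [← a, ← b]
  change 2 * (c ⬝ᵥ m) - _ ≤ c ⬝ᵥ (Matrix.of Z)⁻¹ *ᵥ c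
  linarith

lemma weight {Z : κ → κ → ℝ} (h : (Matrix.of Z).PosDef) :
    ∃ w : κ → ℝ, ∑ k, w k = ∑ i, ∑ j, (Matrix.of Z)⁻¹ i j ∧ Q Z w = ∑ i, ∑ j, (Matrix.of Z)⁻¹ i j := by
  have hu := (Matrix.isUnit_iff_isUnit_det _).1 h.isUnit
  refine ⟨(Matrix.of Z)⁻¹ *ᵥ 1, by simp [mulVec, dotProduct], ?_⟩
  rw [← Q_dot, mulVec_mulVec, mul_nonsing_inv _ hu, one_mulVec]
  simp [mulVec, dotProduct]

lemma mag {Z : κ → κ → ℝ} (h : (Matrix.of Z).PosDef) (m : κ → ℝ) :
    2 * ∑ k, m k - Q Z m ≤ ∑ i, ∑ j, (Matrix.of Z)⁻¹ i j := by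
  simpa [Q] using dual h 1 m

lemma eig {Z : κ → κ → ℝ} (h : (Matrix.of Z).PosDef) :
    ∃ L, 0 < L ∧ ∀ m : κ → ℝ, ∑ k, m k ^ 2 ≤ L * Q Z m := by
  let L := 1 + ∑ i, ∑ j, |(Matrix.of Z)⁻¹ i j|
  have hL : 0 < L := by positivity
  refine ⟨L, hL, fun m => ?_⟩
  have a := dual h (fun k => L⁻¹ * m k) m
  have b : Q (fun i j => (Matrix.of Z)⁻¹ i j) (fun k => L⁻¹ * m k) ≤ L⁻¹ ^ 2 * ((∑ k, m k ^ 2) * (L - 1)) := by
    simp only [Q, L, add_sub_cancel_left, Finset.mul_sum _ _ (∑ k, m k ^ 2), Finset.mul_sum _ _ (_ ^ 2)]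
    refine Finset.sum_le_sum fun i _ => Finset.sum_le_sum fun j _ => ?_
    have c := fun i => Finset.single_le_sum (fun k _ => sq_nonneg (m k)) (Finset.mem_univ i)
    have d : |m i * m j| ≤ ∑ k, m k ^ 2 :=
      abs_le.2 ⟨by nlinarith [c i, c j, sq_nonneg (m i + m j)],
        by nlinarith [c i, c j, sq_nonneg (m i - m j)]⟩
    rw [mul_mul_mul_comm, ← sq, mul_assoc]
    refine mul_le_mul_of_nonneg_left ((le_abs_self _).trans ?_) (sq_nonneg _)
    rw [abs_mul]
    exact mul_le_mul_of_nonneg_right d (abs_nonneg _)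
  simp only [mul_assoc, ← Finset.mul_sum, ← sq] at a
  have c := mul_le_mul_of_nonneg_left (a.trans b) (sq_nonneg L)
  have S0 : 0 ≤ ∑ k, m k ^ 2 := Finset.sum_nonneg fun _ _ => sq_nonneg _
  generalize ∑ k, m k ^ 2 = S at c S0 ⊢
  have d : L ^ 2 * (2 * (L⁻¹ * S) - Q Z m) = L * (2 * S - L * Q Z m) := by field_simp
  have e : L ^ 2 * (L⁻¹ ^ 2 * (S * (L - 1))) = S * (L - 1) := by field_simp
  rw [d, e] at c
  nlinarith

end Pool.Agent.H.MP_e62a5f_gt
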