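import Pool.Agent.H.MP_e62a5f_gt.B
import Pool.Agent.H.MP_e62a5f_gt.C

set_option autoImplicit false
open Filter MeasureTheory Set Matrix Real
open scoped Topology RealInnerProductSpace

namespace Pool.Agent.H.MP_e62a5f_gt

variable {U : Type} [NormedAddCommGroup U] [NormedSpace ℝ U] [FiniteDimensional ℝ U]

noncomputable def Z (X : Finset U) (x y : X) : ℝ := Real.exp (-‖(x : U) - (y : U)‖)

omit [NormedSpace ℝ U] [FiniteDimensional ℝ U] in
lemma fam (H : ∀ X : Finset U, (Matrix.of (Z X)).PosDef) {ι : Type} [Fintype ι] (x : ι → U)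
    (μ : ι → ℝ) : 0 ≤ Q (fun i j => Real.exp (-‖x i - x j‖)) μ := by
  classical
  let p : ι → (Finset.univ.image x : Finset U) := fun i => ⟨x i, by simp⟩
  have := Q_push p μ (Z _)
  exact ((H _).posSemidef.dotProduct_mulVec_nonneg (push p μ)).trans_eq
    ((Q_dot _ _).trans this.symm)

lemma key (H : ∀ X : Finset U, (Matrix.of (Z X)).PosDef) :
    ∃ C, 0 ≤ C ∧ ∀ (ι κ : Type) [Fintype ι] [Fintype κ] [DecidableEq κ] (p : ι → κ) (y : ι → U)
      (x : κ → U) (μ : ι → ℝ) (δ : ℝ), 0 ≤ δ → (∀ i, ‖y i - x (p i)‖ ≤ δ) →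
      Q (fun i j => ‖y i - y j‖) μ - Q (fun i j => ‖x (p i) - x (p j)‖) μ ≤
        C * (Fintype.card κ) ^ 2 * δ * ∑ k, push p μ k ^ 2 := by
  let T := toEuclidean (E := U)
  let K := ‖T.toContinuousLinearMap‖ + 1
  have hK : 0 < K := by positivity
  have hT : ∀ a, ‖T a‖ ≤ K * ‖a‖ := fun a => (T.toContinuousLinearMap.le_opNorm a).trans
    (mul_le_mul_of_nonneg_right (by linarith) (norm_nonneg _))
  obtain ⟨P, hP, hc⟩ := bochner (f := fun v => Real.exp (-‖T.symm v‖)) (fun s a => by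
      have := fam H (fun v : s => T.symm v) fun v => a v
      simp only [Q, ← map_sub] at this
      rw [← Finset.sum_coe_sort s]
      simpa only [← Finset.sum_coe_sort s] using this) (by fun_prop)
    (fun z => by rw [abs_exp]; exact Real.exp_le_one_iff.2 (by simp)) (by
      let r := Module.finrank ℝ (EuclideanSpace ℝ (Fin (Module.finrank ℝ U))) + 1
      refine ((integrable_one_add_norm (r := r) (by simp [r])).const_mul
        (r.factorial * K ^ r * Real.exp K⁻¹)).mono' (by fun_prop) (ae_of_all _ fun v => ?_)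
      have a := Real.pow_div_factorial_le_exp ((1 + ‖v‖) / K) (by positivity) r
      have b := hT (T.symm v)
      rw [T.apply_symm_apply] at b
      have c : (1 + ‖v‖) / K ≤ K⁻¹ + ‖T.symm v‖ := by
        rw [div_le_iff₀ hK, add_mul, inv_mul_cancel₀ hK.ne']; linarith
      have d := a.trans (Real.exp_le_exp.2 c)
      rw [Real.exp_add, div_pow, div_div, div_le_iff₀ (by positivity)] at d
      rw [Real.norm_of_nonneg (exp_pos _).le, Real.rpow_neg (by positivity), Real.rpow_natCast,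
        Real.exp_neg, ← div_eq_mul_inv, inv_eq_one_div, div_le_div_iff₀ (by positivity) (by positivity)]
      linarith) (fun z => by simp) (by simp)
  obtain ⟨C, hC, h⟩ := transfer (N := fun v => ‖T.symm v‖) (P := P) (κ := (2 * Real.pi)⁻¹) (by positivity)
    (fun _ => norm_nonneg _) (fun t x => by simp [norm_smul]) (fun x => by
      have := hc ((2 * Real.pi)⁻¹ • x)
      rw [smul_smul, mul_inv_cancel₀ (by positivity), one_smul, map_smul, norm_smul,
        Real.norm_of_nonneg (by positivity), mul_comm] at this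
      exact this)
  refine ⟨C * (10 * K), by positivity, ?_⟩
  intro ι κ _ _ _ p y x μ δ hδ hy
  have := h (ι × ι) (fun p => μ p.1 * μ p.2) (fun p => T (y p.1 - y p.2))
    (fun a => T (x (p a.1) - x (p a.2)))
    (10 * (Fintype.card κ) ^ 2 * (∑ k, push p μ k ^ 2) * (K * δ)) (by positivity) fun w => by
      have := line p (fun i => ⟪w, T (y i)⟫) μ (fun k => ⟪w, T (x k)⟫) (δ := K * δ * ‖w‖)
        (by positivity) fun i => by
          rw [← inner_sub_right, ← map_sub, mul_comm]
          exact (abs_real_inner_le_norm _ _).trans (mul_le_mul_of_nonneg_left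
            ((hT _).trans (mul_le_mul_of_nonneg_left (hy i) hK.le)) (norm_nonneg _))
      simp only [Q, ← inner_sub_right, ← map_sub] at this
      simp only [Fintype.sum_prod_type]
      linarith
  simp only [Fintype.sum_prod_type, T.symm_apply_apply] at this
  simp only [Q]
  linarith

lemma Q_diag {κ : Type} [Fintype κ] [DecidableEq κ] (a : ℝ) (m : κ → ℝ) :
    Q (fun k l => if k = l then a else 0) m = a * ∑ k, m k ^ 2 := by
  simp [Q, Finset.mul_sum, sq, mul_comm]

lemma Q_add {κ : Type} [Fintype κ] (A B : κ → κ → ℝ) (m : κ → ℝ) :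
    Q (fun k l => A k l + B k l) m = Q A m + Q B m := by
  simp [Q, mul_add, Finset.sum_add_distrib]

lemma Q_sub {κ : Type} [Fintype κ] (A B : κ → κ → ℝ) (m : κ → ℝ) :
    Q (fun k l => A k l - B k l) m = Q A m - Q B m := by
  simp [Q, mul_sub, Finset.sum_sub_distrib]

open Classical in
lemma upper (H : ∀ X : Finset U, (Matrix.of (Z X)).PosDef) (X : Finset U) {ε : ℝ} (h0 : 0 < ε)
    (h1 : ε ≤ 1) : ∃ δ, 0 < δ ∧ ∀ (Y : Finset U) (p : Y → X), (∀ i : Y, ‖(i : U) - p i‖ ≤ δ) →
      (1 - ε) * ∑ i, ∑ j, (Matrix.of (Z Y))⁻¹ i j ≤ ∑ i, ∑ j, (Matrix.of (Z X))⁻¹ i j := by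
  obtain ⟨C, hC, h⟩ := key H
  obtain ⟨L, hL, hl⟩ := eig (H X)
  let A := C * (Fintype.card X : ℝ) ^ 2
  have hA : 0 ≤ A := by positivity
  let δ := ε / (L * (A + 1))
  have hδ : 0 < δ := by positivity
  refine ⟨δ, hδ, fun Y p hp => ?_⟩
  have hτ : A * δ * L ≤ ε := by
    have : (A + 1) * δ * L = ε := by simp only [δ]; field_simp
    nlinarith [mul_pos hδ hL]
  let D : X → X → ℝ := fun k l => ‖(k : U) - l‖ + if k = l then A * δ else 0
  have sD : ∀ k l, D l k = D k l := fun k l => by simp only [D, norm_sub_rev, eq_comm]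
  have hD : ∀ m, (1 - ε) * Q (Z X) m ≤ Q (fun k l => Real.exp (-D k l)) m := fun m => by
    have e : (fun k l => Real.exp (-D k l)) =
        fun k l => Z X k l - if k = l then 1 - Real.exp (-(A * δ)) else 0 := by
      ext k l
      by_cases e : k = l <;> simp [D, Z, e]
    have a := Real.add_one_le_exp (-(A * δ))
    have b := mul_le_mul_of_nonneg_left (hl m) (mul_nonneg hA hδ.le)
    have c := fam H (fun k : X => (k : U)) m
    have d : 0 ≤ ∑ k, m k ^ 2 := by positivity
    rw [e, Q_sub, Q_diag]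
    change 0 ≤ Q (Z X) m at c
    nlinarith
  obtain ⟨w, w1, w2⟩ := weight (H Y)
  have s := schur (B := fun i j => Real.exp (-D (p i) (p j)))
    (E := fun i j => D (p i) (p j) - ‖(i : U) - j‖)
    (psd (fun i j => by rw [sD]) fun μ => by
      rw [Q_push p μ fun k l => Real.exp (-D k l)]
      exact (mul_nonneg (by linarith) (fam H (fun k : X => (k : U)) _)).trans (hD _))
    (psd (fun i j => by rw [sD, norm_sub_rev]) fun μ => by
      have := h Y X p Subtype.val Subtype.val μ δ hδ.le hp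
      rw [Q_sub, Q_add, Q_push p μ fun k l => if k = l then A * δ else 0, Q_diag]
      linarith) w
  simp only [← Real.exp_add, neg_add_eq_sub, sub_sub_cancel_left] at s
  rw [Q_push p w fun k l => Real.exp (-D k l)] at s
  have a := (hD _).trans (s.trans_eq w2)
  have b := mag (H X) fun k => (1 - ε) * push p w k
  have c : Q (Z X) (fun k => (1 - ε) * push p w k) = (1 - ε) * ((1 - ε) * Q (Z X) (push p w)) := by
    simp only [Q, Finset.mul_sum]
    exact Finset.sum_congr rfl fun _ _ => Finset.sum_congr rfl fun _ _ => by ring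
  have d := sum_push p w fun _ => 1
  simp only [mul_one] at d
  rw [c, ← Finset.mul_sum, ← d, w1] at b
  nlinarith

lemma exp_lip {a b : ℝ} (ha : 0 ≤ a) (hb : 0 ≤ b) : |Real.exp (-a) - Real.exp (-b)| ≤ |a - b| := by
  wlog h : a ≤ b generalizing a b
  · rw [abs_sub_comm, abs_sub_comm a]; exact this hb ha (not_le.1 h).le
  have h1 : Real.exp (-b) = Real.exp (-a) * Real.exp (a - b) := by rw [← Real.exp_add]; ring_nf
  have h2 := Real.add_one_le_exp (a - b)
  have h3 : Real.exp (-a) ≤ 1 := Real.exp_le_one_iff.2 (by linarith)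
  have h4 := Real.exp_le_exp.2 (neg_le_neg h)
  have h5 := Real.exp_pos (-a)
  rw [abs_of_nonneg (by linarith), abs_of_nonpos (by linarith), h1]
  nlinarith

omit [NormedSpace ℝ U] [FiniteDimensional ℝ U] in
open Classical in
lemma lower (H : ∀ X : Finset U, (Matrix.of (Z X)).PosDef) (X : Finset U) :
    ∃ M, 0 ≤ M ∧ ∀ (δ : ℝ) (Y : Finset U) (σ : X → Y), (∀ i : X, ‖(i : U) - σ i‖ ≤ δ) →
      ∑ i, ∑ j, (Matrix.of (Z X))⁻¹ i j - M * δ ≤ ∑ i, ∑ j, (Matrix.of (Z Y))⁻¹ i j := by
  obtain ⟨w, w1, w2⟩ := weight (H X)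
  refine ⟨∑ i, ∑ j, |w i * w j| * 2, by positivity, fun δ Y σ hσ => ?_⟩
  have b := mag (H Y) (push σ w)
  have d := sum_push σ w fun _ => 1
  simp only [mul_one] at d
  rw [← d, w1, ← Q_push] at b
  have c : Q (fun i j => Z Y (σ i) (σ j) - Z X i j) w ≤ (∑ i, ∑ j, |w i * w j| * 2) * δ := by
    simp only [Q, Finset.sum_mul]
    refine Finset.sum_le_sum fun i _ => Finset.sum_le_sum fun j _ => (le_abs_self _).trans ?_
    rw [abs_mul, mul_assoc]
    refine mul_le_mul_of_nonneg_left ((exp_lip (norm_nonneg _) (norm_nonneg _)).trans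
      ((abs_norm_sub_norm_le _ _).trans ?_)) (abs_nonneg _)
    rw [show (σ i : U) - σ j - (i - j) = (j - σ j) - (i - σ i) by abel]
    linarith [norm_sub_le ((j : U) - σ j) (i - σ i), hσ i, hσ j]
  rw [Q_sub, w2] at c
  linarith

open Classical in
theorem main (H : ∀ X : Finset U, (Matrix.of (Z X)).PosDef) (X : Finset U) (hX : X.Nonempty)
    (ε : ℝ) (hε : 0 < ε) : ∃ δ : ℝ, 0 < δ ∧ ∀ Y : Finset U, Y.Nonempty →
      Metric.hausdorffDist (X : Set U) (Y : Set U) < δ →
      |(∑ i, ∑ j, (Matrix.of (Z Y))⁻¹ i j) - ∑ i, ∑ j, (Matrix.of (Z X))⁻¹ i j| < ε := by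
  have h0 : ∀ X : Finset U, 0 ≤ ∑ i, ∑ j, (Matrix.of (Z X))⁻¹ i j := fun X => by
    simpa [Q] using mag (H X) 0
  have hx := h0 X
  obtain ⟨M, hM, hl⟩ := lower H X
  set a := ∑ i, ∑ j, (Matrix.of (Z X))⁻¹ i j
  obtain ⟨δ, hδ, hu⟩ := upper H X (ε := ε / (ε + a + 1)) (by positivity)
    (div_le_one_of_le₀ (by linarith) (by positivity))
  refine ⟨min δ (ε / (M + 1)), by positivity, fun Y hY hd => ?_⟩
  have fin : Metric.hausdorffEDist (X : Set U) (Y : Set U) ≠ ⊤ :=
    Metric.hausdorffEDist_ne_top_of_nonempty_of_bounded hX hY X.finite_toSet.isBounded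
      Y.finite_toSet.isBounded
  choose σ σ1 σ2 using fun i : X => Metric.exists_dist_lt_of_hausdorffDist_lt i.2 hd fin
  choose p p1 p2 using fun i : Y => Metric.exists_dist_lt_of_hausdorffDist_lt' i.2 hd fin
  have h1 := hu Y (fun i => ⟨p i, p1 i⟩) fun i => by
    rw [← dist_eq_norm, dist_comm]; exact (p2 i).le.trans (min_le_left _ _)
  have h2 := hl (ε / (M + 1)) Y (fun i => ⟨σ i, σ1 i⟩) fun i => by
    rw [← dist_eq_norm]; exact (σ2 i).le.trans (min_le_right _ _)
  have h3 : M * (ε / (M + 1)) < ε := by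
    rw [← mul_div_assoc, div_lt_iff₀ (by positivity)]; linarith
  rw [one_sub_div (by positivity), div_mul_eq_mul_div, div_le_iff₀ (by positivity)] at h1
  rw [abs_lt]
  constructor
  · linarith
  · nlinarith [h0 Y]

end Pool.Agent.H.MP_e62a5f_gt
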